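import Pool.Agent.W544.K3.Defs

set_option autoImplicit false

/-!
Burnside's theorem for real algebras whose complexification is irreducible (helper721).
-/

open Module

namespace Pool.Agent.W721.K3

open Pool.Agent.W544.K3

section

variable {U : Type} [AddCommGroup U] [Module ℝ U] [FiniteDimensional ℝ U]

/-- complex eigenvectors of real operators -/
theorem exists_ceig [Nontrivial U] (c : End ℝ U) : ∃ (a b : ℝ) (u v : U), u ≠ 0 ∧
    c u = a • u - b • v ∧ c v = b • u + a • v := by
  have hint : IsIntegral ℝ c := Algebra.IsIntegral.isIntegral c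
  set m := minpoly ℝ c with hm
  have hm0 : m ≠ 0 := minpoly.ne_zero hint
  have hdeg : 0 < m.natDegree := minpoly.natDegree_pos hint
  obtain ⟨z, hz⟩ := IsAlgClosed.exists_aeval_eq_zero ℂ m
    (Polynomial.degree_ne_of_natDegree_ne hdeg.ne')
  by_cases hzi : z.im = 0
  · have hroot : m.IsRoot z.re := by
      have hzr : z = ((z.re : ℝ) : ℂ) := by
        apply Complex.ext
        · simp
        · simp [hzi]
      rw [hzr] at hz
      have h1 : Polynomial.aeval ((z.re : ℝ) : ℂ) m = ((m.eval z.re : ℝ) : ℂ) := by
        have := Polynomial.aeval_algebraMap_apply ℂ z.re m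
        simpa using this
      rw [h1] at hz
      exact_mod_cast hz
    have hev := Module.End.hasEigenvalue_of_isRoot hroot
    obtain ⟨u, hu⟩ := hev.exists_hasEigenvector
    refine ⟨z.re, 0, u, 0, hu.2, ?_, ?_⟩
    · rw [hu.apply_eq_smul]; simp
    · simp
  · obtain ⟨r, hr⟩ := Polynomial.quadratic_dvd_of_aeval_eq_zero_im_ne_zero m hz hzi
    set q : Polynomial ℝ := Polynomial.X ^ 2 - Polynomial.C (2 * z.re) * Polynomial.X +
      Polynomial.C (‖z‖ ^ 2) with hq
    have hqdeg : q.natDegree = 2 := by
      rw [hq]; compute_degree!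
    have hq0 : q ≠ 0 := by
      intro h; rw [h] at hqdeg; simp at hqdeg
    have hr0 : r ≠ 0 := by
      intro h; rw [h, mul_zero] at hr; exact hm0 hr
    -- the quadratic factor has a kernel
    have hker : ∃ u : U, u ≠ 0 ∧ Polynomial.aeval c q u = 0 := by
      by_contra hcon
      push Not at hcon
      have hinj : ∀ u, Polynomial.aeval c q u = 0 → u = 0 := by
        intro u hu
        by_contra h
        exact hcon u h hu
      have h1 : Polynomial.aeval c r = 0 := by
        apply LinearMap.ext
        intro u
        apply hinj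
        have h2 : Polynomial.aeval c m = 0 := minpoly.aeval ℝ c
        rw [hr, map_mul] at h2
        have := congrArg (fun f : End ℝ U => f u) h2
        exact this
      have h3 : m.natDegree ≤ r.natDegree :=
        Polynomial.natDegree_le_natDegree (minpoly.degree_le_of_ne_zero ℝ c hr0 h1)
      have h4 : m.natDegree = 2 + r.natDegree := by
        rw [hr, Polynomial.natDegree_mul hq0 hr0, hqdeg]
      omega
    obtain ⟨u, hu0, hu⟩ := hker
    have hu2 : c (c u) = (2 * z.re) • c u - (‖z‖ ^ 2) • u := by
      have h1 : Polynomial.aeval c q u = c (c u) - (2 * z.re) • c u + (‖z‖ ^ 2) • u := by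
        rw [hq]
        simp only [map_add, map_sub, map_mul, Polynomial.aeval_X, Polynomial.aeval_C,
          LinearMap.add_apply, LinearMap.sub_apply, Module.End.mul_apply,
          Module.algebraMap_end_apply, pow_two]
        module
      rw [h1] at hu
      have h2 : c (c u) = (c (c u) - (2 * z.re) • c u + (‖z‖ ^ 2) • u) + (2 * z.re) • c u -
          (‖z‖ ^ 2) • u := by abel
      rw [h2, hu]; abel
    have hnorm : ‖z‖ ^ 2 = z.re ^ 2 + z.im ^ 2 := by
      rw [← Complex.normSq_eq_norm_sq, Complex.normSq_apply]; ring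
    refine ⟨z.re, z.im, u, z.im⁻¹ • (z.re • u - c u), hu0, ?_, ?_⟩
    · rw [smul_smul, mul_inv_cancel₀ hzi, one_smul]; abel
    · rw [map_smul, map_sub, map_smul, hu2, hnorm]
      have h5 : z.re • c u - ((2 * z.re) • c u - (z.re ^ 2 + z.im ^ 2) • u) =
          z.re • (z.re • u - c u) + (z.im ^ 2) • u := by
        module
      rw [h5, smul_add, smul_smul _ (z.im ^ 2)]
      have h6 : z.im⁻¹ * z.im ^ 2 = z.im := by field_simp
      rw [h6, smul_comm, add_comm]

end

theorem dens : S_dens := by
  intro U _ _ _ A hA
  classical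
  rcases subsingleton_or_nontrivial U with hU | hU
  · rw [eq_top_iff]
    intro x _
    have : x = 0 := LinearMap.ext fun u => Subsingleton.elim _ _
    rw [this]
    exact A.zero_mem
  -- irreducibility
  have hsimple : ∀ N : Submodule A U, N = ⊥ ∨ N = ⊤ := by
    intro N
    set N' : Submodule ℝ U :=
      { carrier := N
        add_mem' := fun {a b} ha hb => N.add_mem ha hb
        zero_mem' := N.zero_mem
        smul_mem' := fun t x hx => by
          have h1 := N.smul_mem (algebraMap ℝ A t) hx
          exact h1 } with hN'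
    have hmem : ∀ x, x ∈ N' ↔ x ∈ N := fun x => Iff.rfl
    rcases hA (N'.prod N') (by
      intro p hp
      rw [Submodule.mem_prod] at hp ⊢
      exact ⟨N'.neg_mem hp.2, hp.1⟩) (by
      intro y hy p hp
      rw [Submodule.mem_prod] at hp ⊢
      exact ⟨N.smul_mem (⟨y, hy⟩ : A) hp.1, N.smul_mem (⟨y, hy⟩ : A) hp.2⟩) with h | h
    · left
      rw [eq_bot_iff]
      intro x hx
      have h1 : ((x, 0) : U × U) ∈ N'.prod N' := by
        rw [Submodule.mem_prod]; exact ⟨hx, N'.zero_mem⟩
      rw [h, Submodule.mem_bot] at h1
      have h2 := congrArg Prod.fst h1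
      exact h2
    · right
      rw [eq_top_iff]
      intro x _
      have h1 : ((x, 0) : U × U) ∈ N'.prod N' := by rw [h]; trivial
      exact h1.1
  have : IsSimpleModule A U := by
    have : Nontrivial (Submodule A U) := (Submodule.nontrivial_iff A).2 hU
    exact { eq_bot_or_eq_top := hsimple }
  -- the commutant
  have hcomm : ∀ c : End A U, ∃ a : ℝ, ∀ u, c u = a • u := by
    intro c
    set cR : End ℝ U :=
      { toFun := c
        map_add' := c.map_add
        map_smul' := fun t x => by
          have h1 := c.map_smul (algebraMap ℝ A t) x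
          exact h1 } with hcR
    have hcA : ∀ y ∈ A, ∀ u, cR (y u) = y (cR u) := by
      intro y hy u
      exact c.map_smul (⟨y, hy⟩ : A) u
    obtain ⟨a, b, u, v, hu, h1, h2⟩ := exists_ceig cR
    set M : Submodule ℝ (U × U) :=
      { carrier := {p | cR p.1 = a • p.1 - b • p.2 ∧ cR p.2 = b • p.1 + a • p.2}
        add_mem' := by
          rintro p q ⟨hp1, hp2⟩ ⟨hq1, hq2⟩
          refine ⟨?_, ?_⟩
          · simp only [Prod.fst_add, Prod.snd_add, map_add, hp1, hq1, smul_add]; abel
          · simp only [Prod.fst_add, Prod.snd_add, map_add, hp2, hq2, smul_add]; abel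
        zero_mem' := by
          refine ⟨?_, ?_⟩ <;> simp
        smul_mem' := by
          rintro t p ⟨hp1, hp2⟩
          refine ⟨?_, ?_⟩
          · simp only [Prod.smul_fst, Prod.smul_snd, map_smul, hp1, smul_sub]
            rw [smul_comm t a, smul_comm t b]
          · simp only [Prod.smul_fst, Prod.smul_snd, map_smul, hp2, smul_add]
            rw [smul_comm t a, smul_comm t b] } with hM
    have hMmem : ∀ p : U × U, p ∈ M ↔ (cR p.1 = a • p.1 - b • p.2 ∧ cR p.2 = b • p.1 + a • p.2) :=
      fun p => Iff.rfl
    rcases hA M (by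
      intro p hp
      rw [hMmem] at hp ⊢
      obtain ⟨hp1, hp2⟩ := hp
      refine ⟨?_, ?_⟩
      · simp only [map_neg, hp2, smul_neg]; abel
      · simp only [hp1, smul_neg]; abel) (by
      intro y hy p hp
      rw [hMmem] at hp ⊢
      obtain ⟨hp1, hp2⟩ := hp
      refine ⟨?_, ?_⟩
      · simp only [hcA y hy, hp1, map_sub, map_smul]
      · simp only [hcA y hy, hp2, map_add, map_smul]) with h | h
    · exfalso
      have h3 : ((u, v) : U × U) ∈ M := ⟨h1, h2⟩
      rw [h, Submodule.mem_bot] at h3
      exact hu (congrArg Prod.fst h3)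
    · refine ⟨a, fun p => ?_⟩
      have h3 : ((p, 0) : U × U) ∈ M := by rw [h]; trivial
      have h4 := h3.1
      simp only [smul_zero, sub_zero] at h4
      exact h4
  -- density
  rw [eq_top_iff]
  intro f _
  set F : End (End A U) U :=
    { toFun := f
      map_add' := f.map_add
      map_smul' := fun c x => by
        obtain ⟨a, ha⟩ := hcomm c
        change f (c x) = c (f x)
        rw [ha, ha, map_smul] } with hF
  set b := Module.finBasis ℝ U with hb
  obtain ⟨r, hr⟩ := jacobson_density F (Finset.univ.image b)
  have hfr : f = (r : End ℝ U) := by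
    apply b.ext
    intro i
    have h1 := hr (b i) (Finset.mem_image_of_mem _ (Finset.mem_univ i))
    exact h1
  rw [hfr]
  exact r.2

end Pool.Agent.W721.K3
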