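import Pool.Agent.W544.K3.Defs

set_option autoImplicit false

/-!
If the rotation of the plane of the two-form lies in the Lie algebra of the de Rham-Betti group,
then de Rham-Betti classes are Hodge classes (helper721).
-/

open Module Finset

namespace Pool.Agent.W721.K3

open Pool.Agent.W544.K3

noncomputable section

variable {r : ℕ}

/-- complexification of a real vector -/
def cv (v : Fin r → ℝ) : Fin r → ℂ := fun i => (v i : ℂ)

theorem bil_add_left (B : Matrix (Fin r) (Fin r) ℚ) (u u' v : Fin r → ℂ) :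
    bil B (u + u') v = bil B u v + bil B u' v := by
  simp only [bil, Pi.add_apply, add_mul, Finset.sum_add_distrib]

theorem bil_add_right (B : Matrix (Fin r) (Fin r) ℚ) (u v v' : Fin r → ℂ) :
    bil B u (v + v') = bil B u v + bil B u v' := by
  simp only [bil, Pi.add_apply, mul_add, Finset.sum_add_distrib]

theorem bil_smul_left (B : Matrix (Fin r) (Fin r) ℚ) (a : ℂ) (u v : Fin r → ℂ) :
    bil B (a • u) v = a * bil B u v := by
  simp only [bil, Pi.smul_apply, smul_eq_mul, Finset.mul_sum, mul_assoc]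

theorem bil_smul_right (B : Matrix (Fin r) (Fin r) ℚ) (a : ℂ) (u v : Fin r → ℂ) :
    bil B u (a • v) = a * bil B u v := by
  simp only [bil, Pi.smul_apply, smul_eq_mul, Finset.mul_sum]
  exact Finset.sum_congr rfl fun i _ => Finset.sum_congr rfl fun j _ => by ring

theorem bil_symm (B : Matrix (Fin r) (Fin r) ℚ) (hB : ∀ i j, B i j = B j i) (u v : Fin r → ℂ) :
    bil B u v = bil B v u := by
  simp only [bil]
  rw [Finset.sum_comm]
  exact Finset.sum_congr rfl fun i _ => Finset.sum_congr rfl fun j _ => by rw [hB j i]; ring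

theorem bilR_symm (B : Matrix (Fin r) (Fin r) ℚ) (hB : ∀ i j, B i j = B j i) (u v : Fin r → ℝ) :
    bilR B u v = bilR B v u := by
  simp only [bilR_apply]
  rw [Finset.sum_comm]
  exact Finset.sum_congr rfl fun i _ => Finset.sum_congr rfl fun j _ => by rw [hB j i]; ring

theorem bil_cv (B : Matrix (Fin r) (Fin r) ℚ) (u v : Fin r → ℝ) :
    bil B (cv u) (cv v) = ((bilR B u v : ℝ) : ℂ) := by
  simp only [bil, bilR_apply, cv]
  push_cast
  rfl

/-- real part -/
def rp (w : Fin r → ℂ) : Fin r → ℝ := fun i => (w i).re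

/-- imaginary part -/
def ip (w : Fin r → ℂ) : Fin r → ℝ := fun i => (w i).im

theorem eq_rp_ip (w : Fin r → ℂ) : w = cv (rp w) + Complex.I • cv (ip w) := by
  funext i
  simp only [cv, rp, ip, Pi.add_apply, Pi.smul_apply, smul_eq_mul]
  rw [mul_comm]
  exact (Complex.re_add_im (w i)).symm

theorem cj_eq_rp_ip (w : Fin r → ℂ) : cj w = cv (rp w) + (-Complex.I) • cv (ip w) := by
  funext i
  simp only [cj, cv, rp, ip, Pi.add_apply, Pi.smul_apply, smul_eq_mul]
  apply Complex.ext <;> simp

theorem plane (X : K3Type r) : bilR X.B (rp X.ω) (rp X.ω) = bilR X.B (ip X.ω) (ip X.ω) ∧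
    bilR X.B (rp X.ω) (ip X.ω) = 0 ∧ 0 < bilR X.B (rp X.ω) (rp X.ω) := by
  have h1 := X.iso
  have h2 := X.pos
  have hs := bilR_symm X.B X.symm (ip X.ω) (rp X.ω)
  rw [cj_eq_rp_ip] at h2
  rw [eq_rp_ip X.ω] at h1
  have h3 : bil X.B X.ω = bil X.B (cv (rp X.ω) + Complex.I • cv (ip X.ω)) := by
    rw [← eq_rp_ip]
  rw [h3] at h2
  rw [bil_add_left, bil_add_right, bil_add_right, bil_smul_left, bil_smul_left, bil_smul_right,
    bil_smul_right, bil_cv, bil_cv, bil_cv, bil_cv, hs] at h1 h2
  have h4 := congrArg Complex.re h1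
  have h5 := congrArg Complex.im h1
  simp at h4 h5 h2
  refine ⟨by linarith, by linarith, by linarith⟩

theorem rp_mem (X : K3Type r) : rp X.ω ∈ X.U := by
  intro P _ c hc i
  have h1 := congrArg Complex.re (congrFun hc i)
  simp only [app, Pi.smul_apply, smul_eq_mul, Complex.re_sum] at h1
  simp only [rp]
  rw [Complex.re_ofReal_mul] at h1
  rw [← h1]
  refine Finset.sum_congr rfl fun j _ => ?_
  have : ((P i j : ℚ) : ℂ) = (((P i j : ℚ) : ℝ) : ℂ) := by push_cast; rfl
  rw [this, Complex.re_ofReal_mul]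

theorem ip_mem (X : K3Type r) : ip X.ω ∈ X.U := by
  intro P _ c hc i
  have h1 := congrArg Complex.im (congrFun hc i)
  simp only [app, Pi.smul_apply, smul_eq_mul, Complex.im_sum] at h1
  simp only [ip]
  rw [Complex.im_ofReal_mul] at h1
  rw [← h1]
  refine Finset.sum_congr rfl fun j _ => ?_
  have : ((P i j : ℚ) : ℂ) = (((P i j : ℚ) : ℝ) : ℂ) := by push_cast; rfl
  rw [this, Complex.im_ofReal_mul]

/-- the rotation of the plane of the two-form -/
def rot (X : K3Type r) : End ℝ (Fin r → ℝ) :=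
  (bilR X.B (rp X.ω) (rp X.ω))⁻¹ • wedge (bilR X.B) (rp X.ω) (ip X.ω)

theorem rot_skew (X : K3Type r) : Skew (bilR X.B) (rot X) := by
  intro u v
  simp only [rot, LinearMap.smul_apply, wedge_apply, map_smul, map_sub, LinearMap.sub_apply,
    smul_eq_mul]
  rw [bilR_symm X.B X.symm u (ip X.ω), bilR_symm X.B X.symm u (rp X.ω)]
  ring

theorem rot_zero (X : K3Type r) (v : Fin r → ℝ) (hv : ∀ u ∈ X.U, bilR X.B u v = 0) :
    rot X v = 0 := by
  simp only [rot, LinearMap.smul_apply, wedge_apply]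
  rw [hv _ (rp_mem X), hv _ (ip_mem X)]
  simp

/-- the bilinear form as a linear functional of the second variable -/
def bilL (B : Matrix (Fin r) (Fin r) ℚ) (u : Fin r → ℂ) : (Fin r → ℂ) →ₗ[ℂ] ℂ where
  toFun v := bil B u v
  map_add' v v' := bil_add_right B u v v'
  map_smul' a v := by rw [bil_smul_right]; rfl

/-- the complexification of the rotation -/
def rotC (X : K3Type r) : (Fin r → ℂ) →ₗ[ℂ] (Fin r → ℂ) :=
  ((bilR X.B (rp X.ω) (rp X.ω) : ℝ) : ℂ)⁻¹ •
    ((bilL X.B (cv (rp X.ω))).smulRight (cv (ip X.ω)) -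
      (bilL X.B (cv (ip X.ω))).smulRight (cv (rp X.ω)))

theorem rotC_apply (X : K3Type r) (v : Fin r → ℂ) : rotC X v =
    ((bilR X.B (rp X.ω) (rp X.ω) : ℝ) : ℂ)⁻¹ •
      (bil X.B (cv (rp X.ω)) v • cv (ip X.ω) - bil X.B (cv (ip X.ω)) v • cv (rp X.ω)) := by
  simp [rotC, bilL]

theorem rotC_cv (X : K3Type r) (v : Fin r → ℝ) : rotC X (cv v) = cv (rot X v) := by
  rw [rotC_apply, bil_cv, bil_cv]
  funext i
  simp [rot, wedge_apply, cv]

/-- the complex multilinear form of a rational form -/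
def evM {k : ℕ} (t : (Fin k → Fin r) → ℚ) :
    MultilinearMap ℂ (fun _ : Fin k => (Fin r → ℂ)) ℂ :=
  ∑ I : Fin k → Fin r, (t I : ℂ) • (MultilinearMap.mkPiAlgebra ℂ (Fin k) ℂ).compLinearMap
    (fun j => LinearMap.proj (I j))

theorem evM_apply {k : ℕ} (t : (Fin k → Fin r) → ℚ) (v : Fin k → Fin r → ℂ) :
    evM t v = ev t v := by
  simp [evM, ev]

theorem ev_cv {k : ℕ} (t : (Fin k → Fin r) → ℚ) (v : Fin k → Fin r → ℝ) :
    ev t (fun j => cv (v j)) = ((formR t v : ℝ) : ℂ) := by
  rw [formR_apply, ev]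
  simp only [cv]
  push_cast
  rfl

theorem kills_cx (X : K3Type r) {k : ℕ} (t : (Fin k → Fin r) → ℚ)
    (hk : Kills (rot X) (formR t)) (v : Fin k → Fin r → ℂ) :
    ∑ j, ev t (Function.update v j (rotC X (v j))) = 0 := by
  have key : (∑ j, (evM t).compLinearMap
      (Function.update (fun _ => LinearMap.id) j (rotC X))) = 0 := by
    refine Basis.ext_multilinear (fun _ => Pi.basisFun ℂ (Fin r)) fun I => ?_
    simp only [_root_.sum_apply, MultilinearMap.compLinearMap_apply,
      _root_.zero_apply]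
    have h1 := hk (fun j => Pi.single (I j) (1 : ℝ))
    have h2 : ((∑ j, formR t (Function.update (fun j => Pi.single (I j) (1 : ℝ)) j
        (rot X (Pi.single (I j) (1 : ℝ)))) : ℝ) : ℂ) = 0 := by
      rw [h1]; simp
    rw [← h2]
    push_cast
    refine Finset.sum_congr rfl fun j _ => ?_
    rw [← ev_cv, evM_apply]
    congr 1
    funext i
    have hb : ∀ a : Fin r, (Pi.basisFun ℂ (Fin r)) a = cv (Pi.single a (1 : ℝ)) := by
      intro a
      rw [Pi.basisFun_apply]
      funext b
      simp only [cv, Pi.single_apply]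
      split_ifs <;> simp
    by_cases hij : i = j
    · subst hij
      simp only [Function.update_self]
      rw [hb, rotC_cv]
    · simp only [Function.update_of_ne hij]
      rw [hb]
      rfl
  have h3 := congrArg (fun T => T v) key
  simp only [_root_.sum_apply, MultilinearMap.compLinearMap_apply,
      _root_.zero_apply] at h3
  rw [← h3]
  refine Finset.sum_congr rfl fun j _ => ?_
  rw [evM_apply]
  congr 1
  funext i
  by_cases hij : i = j
  · subst hij
    simp only [Function.update_self]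
  · simp only [Function.update_of_ne hij]
    rfl

theorem rotC_type (X : K3Type r) (v : Fin r → ℂ) (p : ℤ) (h : X.HType v p) :
    rotC X v = (-(Complex.I * (p : ℂ))) • v := by
  obtain ⟨h1, h2, h3⟩ := plane X
  have hs := bilR_symm X.B X.symm (ip X.ω) (rp X.ω)
  have hc : ((bilR X.B (rp X.ω) (rp X.ω) : ℝ) : ℂ) ≠ 0 := by
    exact_mod_cast h3.ne'
  rcases h with ⟨hp, hv⟩ | ⟨hp, hv⟩ | ⟨hp, hv, hv'⟩
  · subst hp
    subst hv
    rw [rotC_apply]
    have e1 : bil X.B (cv (rp X.ω)) X.ω = ((bilR X.B (rp X.ω) (rp X.ω) : ℝ) : ℂ) := by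
      conv_lhs => rw [eq_rp_ip X.ω]
      rw [show rp (cv (rp X.ω) + Complex.I • cv (ip X.ω)) = rp X.ω by rw [← eq_rp_ip],
        bil_add_right, bil_smul_right, bil_cv, bil_cv, h2]
      simp
    have e2 : bil X.B (cv (ip X.ω)) X.ω =
        Complex.I * ((bilR X.B (rp X.ω) (rp X.ω) : ℝ) : ℂ) := by
      conv_lhs => rw [eq_rp_ip X.ω]
      rw [show ip (cv (rp X.ω) + Complex.I • cv (ip X.ω)) = ip X.ω by rw [← eq_rp_ip],
        bil_add_right, bil_smul_right, bil_cv, bil_cv, hs, h2, h1]
      simp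
    rw [e1, e2]
    conv_rhs => rw [eq_rp_ip X.ω]
    funext i
    simp only [Pi.smul_apply, Pi.sub_apply, Pi.add_apply, smul_eq_mul]
    field_simp
    push_cast
    have hI := Complex.I_sq
    linear_combination (cv (ip X.ω) i) * hI
  · subst hp
    subst hv
    rw [rotC_apply]
    have e1 : bil X.B (cv (rp X.ω)) (cj X.ω) = ((bilR X.B (rp X.ω) (rp X.ω) : ℝ) : ℂ) := by
      rw [cj_eq_rp_ip, bil_add_right, bil_smul_right, bil_cv, bil_cv, h2]
      simp
    have e2 : bil X.B (cv (ip X.ω)) (cj X.ω) =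
        -Complex.I * ((bilR X.B (rp X.ω) (rp X.ω) : ℝ) : ℂ) := by
      rw [cj_eq_rp_ip, bil_add_right, bil_smul_right, bil_cv, bil_cv, hs, h2, h1]
      simp
    rw [e1, e2, cj_eq_rp_ip]
    funext i
    simp only [Pi.smul_apply, Pi.sub_apply, Pi.add_apply, smul_eq_mul]
    field_simp
    push_cast
    have hI := Complex.I_sq
    linear_combination (cv (ip X.ω) i) * hI
  · subst hp
    have e0 : bil X.B v (cv (rp X.ω)) + Complex.I * bil X.B v (cv (ip X.ω)) = 0 := by
      rw [← bil_smul_right, ← bil_add_right, ← eq_rp_ip, hv]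
    have e0' : bil X.B v (cv (rp X.ω)) + (-Complex.I) * bil X.B v (cv (ip X.ω)) = 0 := by
      rw [← bil_smul_right, ← bil_add_right, ← cj_eq_rp_ip, hv']
    have e1 : bil X.B (cv (rp X.ω)) v = 0 := by
      rw [bil_symm X.B X.symm]
      linear_combination (e0 + e0') / 2
    have e2 : bil X.B (cv (ip X.ω)) v = 0 := by
      rw [bil_symm X.B X.symm]
      have hI := Complex.I_sq
      linear_combination (-Complex.I / 2) * (e0 - e0') + bil X.B v (cv (ip X.ω)) * hI
    rw [rotC_apply, e1, e2]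
    simp

/-- (HODGE) -/
theorem hodge : S_hodge := by
  intro r X hyp k t ht v p hv hp
  have hk : Kills (rot X) (formR t) := hyp (rot X) (rot_skew X) (rot_zero X) k t ht
  have h1 := kills_cx X t hk v
  have h2 : ∀ j, ev t (Function.update v j (rotC X (v j))) =
      (-(Complex.I * (p j : ℂ))) * ev t v := by
    intro j
    rw [rotC_type X (v j) (p j) (hv j), ← evM_apply, MultilinearMap.map_update_smul,
      Function.update_eq_self, evM_apply]
    rfl
  rw [Finset.sum_congr rfl fun j _ => h2 j, ← Finset.sum_mul] at h1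
  rcases mul_eq_zero.mp h1 with h3 | h3
  · exfalso
    apply hp
    rw [Finset.sum_neg_distrib, ← Finset.mul_sum, neg_eq_zero] at h3
    rcases mul_eq_zero.mp h3 with h4 | h4
    · exact absurd h4 Complex.I_ne_zero
    · exact_mod_cast h4
  · exact h3

end

end Pool.Agent.W721.K3
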